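import Pool.Agent.V11168.MV.Main
import Pool.Agent.V11168.Pair.Point
import Pool.Agent.Y174.L3

/-!
# Logarithmic Kodaira dimension `-∞` and multivalued logarithmic 1-forms along the fibres of a map

Let `U` be a smooth quasi-projective variety of dimension `d + r` with function field `K`, and let `Bd v`
say that the centre of the prime divisor `v` on a smooth compactification of `U` with boundary `D` lies in
`D`. Then the logarithmic Kodaira dimension of `U` is the Kodaira dimension of the pair with the
multiplicities `bd Bd v = 1` if `Bd v`, and `0` otherwise: the sections of `m (K + D)` are the `m`-fold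
pluricanonical forms on the function field with poles of order at most `m` along the `v` with `Bd v`, and
regular along the other prime divisors. Let `f : U → B` be a dominant rational map, `dim B = d`, with
`M ⊂ K` the function field of `B` (`B` may be a point: `d = 0`).

A multivalued 1-form on `U` is a `K`-linear map `ω` from the rational vector fields to the algebraic
closure of `K`. It is logarithmic (`MultiLog`) if along each prime divisor `v` its values on the vector
fields which are regular along `v`, and tangent to `v` if `Bd v`, are integral over the local ring of `v`.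
It is assumed that no rational vector field on `U` which is tangent to the fibres of `f` is killed by all
the multivalued logarithmic 1-forms `ω i`. (In the algebraic closure of `K` there can be such vector fields:
a single `ω`, with `r` conjugates which are linearly independent along the fibres, is enough.)

`Δ_B` is a divisor on `B`, given by its multiplicities `δB u ≤ 1` along all prime divisors `u` over `B`, with
`δB u ≤ 1 - 1 / c` if a prime divisor `v` over `U`, not `Bd v`, lies over `u` with multiplicity `c`
(`IsCompatible`). If `V` is a smooth quasi-projective variety with the function field `M`, with boundary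
given by `BdV`, and `f` is a morphism `U → V`, then one can take `Δ_B = bd BdV`.
-/

set_option autoImplicit false

open FF IntermediateField Pool.Agent.W619.PQ Pool.Agent.W619.TW Pool.Agent.W619.Y
  Pool.Agent.Y173.QA Pool.Agent.Y174 Pool.Agent.V11168.Rel

namespace Pool.Agent.Results.MP_410da7_ag.MultivaluedLogForms

open scoped Classical in
/-- The multiplicities of the reduced boundary: `1` along the prime divisors with `Bd v`. -/
noncomputable def bd {k K : Type} [Field k] [Field K] [Algebra k K] (Bd : Place k K → Prop)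
    (v : Place k K) : ℝ := if Bd v then 1 else 0

/-- The logarithmic Kodaira dimension is at least `h`: for some `m ≥ 1` there are `h + 1` sections of
`m (K + D)` whose `h` ratios are algebraically independent. It is `-∞` if this fails for `h = 0`. -/
def LogKodairaGe (k K : Type) [Field k] [Field K] [Algebra k K] (n : ℕ) (Bd : Place k K → Prop)
    (h : ℕ) : Prop := PairKod k K n (bd Bd) h

/-- The multiplicities `δB u ≤ 1` of `Δ_B` are compatible with the multiplicities of `f : U → B`. -/
def IsCompatible {K : Type} [Field K] [Algebra ℂ K] (Bd : Place ℂ K → Prop)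
    (M : IntermediateField ℂ K) (n : ℕ) (δB : Place ℂ M → ℝ) : Prop :=
  (∀ u, δB u ≤ 1) ∧ ∀ v : Place ℂ K, IsDivisorial v n → ¬ Bd v →
    ∀ (u : Place ℂ M) (c : ℕ), LiesOn v u c → δB u ≤ 1 - 1 / c

/-- **Theorem.** Let `U`, `f : U → B`, `M ⊂ K` and the multivalued logarithmic 1-forms `ω i` be as above.
(1) For all divisors `Δ_B` as above with `κ (K_B + Δ_B) ≥ 0`, the logarithmic Kodaira dimension of `U` is at
least `κ (K_B + Δ_B)` (`PairKod ℂ M d δB h` means `κ (K_B + Δ_B) ≥ h`), and `U` has a finite Galois cover
`U'`, with function field `L`, and `r` logarithmic 1-forms `θ i` which are linearly independent on the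
general fibre of `U' → B`, such that `U` and `U'` have the same logarithmic Kodaira dimension. (2) If the
logarithmic Kodaira dimension of `U` is `-∞`, then `κ (K_B + Δ_B) = -∞` for all these `Δ_B`, the logarithmic
Kodaira dimension of `V` is `-∞` if `f` is a morphism `U → V` as above, and `B` is not a point. -/
theorem result {K : Type} [Field K] [Algebra ℂ K] [Algebra.EssFiniteType ℂ K]
    (M : IntermediateField ℂ K) [Algebra.EssFiniteType ℂ M] {d r s : ℕ}
    (hM : Algebra.trdeg ℂ M = d) (hn : Algebra.trdeg ℂ K = (d + r : ℕ))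
    (Bd : Place ℂ K → Prop)
    (ω : Fin s → Derivation ℂ K K →ₗ[K] AlgebraicClosure K)
    (hreg : ∀ i, MultiLog (d + r) Bd (ω i))
    (hker : ∀ D : Derivation ℂ K K, (∀ x ∈ M, D x = 0) → (∀ i, ω i D = 0) → D = 0) :
    (∀ δB : Place ℂ M → ℝ, IsCompatible Bd M (d + r) δB → PairKod ℂ M d δB 0 →
      (∀ h, PairKod ℂ M d δB h → LogKodairaGe ℂ K (d + r) Bd h) ∧
      ∃ L : IntermediateField K (AlgebraicClosure K), FiniteDimensional K L ∧ IsGalois K L ∧
        (∃ θ : Fin r → (Derivation ℂ L L →ₗ[L] L),
          (∀ i, ∀ w : Place ℂ L, IsDivisorial w (d + r) → ∀ D : Derivation ℂ L L,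
            LogFld (BdOn Bd) w D → w.Reg (θ i D)) ∧
          ∀ c : Fin r → L, (∀ D : Derivation ℂ L L, (∀ x ∈ M, D (algebraMap K L x) = 0) →
            ∑ i, c i * θ i D = 0) → c = 0) ∧
        ∀ h, LogKodairaGe ℂ K (d + r) Bd h ↔ LogKodairaGe ℂ L (d + r) (BdOn Bd) h) ∧
    (¬ LogKodairaGe ℂ K (d + r) Bd 0 →
      (∀ δB : Place ℂ M → ℝ, IsCompatible Bd M (d + r) δB → ¬ PairKod ℂ M d δB 0) ∧
      (∀ BdV : Place ℂ M → Prop, (∀ v : Place ℂ K, IsDivisorial v (d + r) → ¬ Bd v →
        ∀ (u : Place ℂ M) (c : ℕ), LiesOn v u c → ¬ BdV u) → ¬ LogKodairaGe ℂ M d BdV 0) ∧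
      d ≠ 0) := by
  classical
  have hbd0 : ∀ v : Place ℂ K, 0 ≤ bd Bd v := by
    intro v
    unfold bd
    split_ifs
    · exact zero_le_one
    · exact le_rfl
  have hbd1 : ∀ v : Place ℂ K, Bd v → bd Bd v = 1 := fun v h => if_pos h
  have key : ∀ δB : Place ℂ M → ℝ, IsCompatible Bd M (d + r) δB → PairKod ℂ M d δB 0 →
      (∀ h, PairKod ℂ M d δB h → LogKodairaGe ℂ K (d + r) Bd h) ∧
      ∃ L : IntermediateField K (AlgebraicClosure K), FiniteDimensional K L ∧ IsGalois K L ∧
        (∃ θ : Fin r → (Derivation ℂ L L →ₗ[L] L),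
          (∀ i, ∀ w : Place ℂ L, IsDivisorial w (d + r) → ∀ D : Derivation ℂ L L,
            LogFld (BdOn Bd) w D → w.Reg (θ i D)) ∧
          ∀ c : Fin r → L, (∀ D : Derivation ℂ L L, (∀ x ∈ M, D (algebraMap K L x) = 0) →
            ∑ i, c i * θ i D = 0) → c = 0) ∧
        ∀ h, LogKodairaGe ℂ K (d + r) Bd h ↔ LogKodairaGe ℂ L (d + r) (BdOn Bd) h := by
    rintro δB ⟨hB, hX⟩ hκ
    obtain ⟨L, h1, h2, ⟨θ, h3, h4⟩, h5, h6⟩ := Pool.Agent.V11168.MV.mv_main
      (Ω := AlgebraicClosure K) ‹Algebra.EssFiniteType ℂ K› M ‹Algebra.EssFiniteType ℂ M› hM hn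
      Bd (bd Bd) hbd0 hbd1 hB
      (fun v hv u c hc => by
        by_cases hb : Bd v
        · rw [hbd1 v hb, sub_self]
          exact mul_nonneg (Nat.cast_nonneg c) (sub_nonneg.2 (hB u))
        · have h1 := hX v hv hb u c hc
          have h2 : (0 : ℝ) < c := by exact_mod_cast hc.1
          have h3 : (c : ℝ) * (1 / c) = 1 := by field_simp
          have h4 := mul_le_mul_of_nonneg_left (show 1 / (c : ℝ) ≤ 1 - δB u by linarith) h2.le
          have h5 : bd Bd v = 0 := if_neg hb
          rw [h5]
          linarith)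
      hκ ω hreg hker
    have hpull : IsPull (bd Bd) (bd (BdOn (L := L) Bd)) := by
      intro v w e he
      have h7 : (1 : ℝ) ≤ e := by exact_mod_cast he.1
      by_cases hb : Bd v
      · have h8 : bd (BdOn (L := L) Bd) w = 1 := if_pos ⟨v, e, he, hb⟩
        rw [h8, hbd1 v hb, sub_self, mul_zero, sub_zero, max_eq_right zero_le_one]
      · have h8 : bd (BdOn (L := L) Bd) w = 0 := if_neg (by
          rintro ⟨v', e', he', hb'⟩
          obtain ⟨rfl, -⟩ := liesOn_unique he he'
          exact hb hb')
        have h9 : bd Bd v = 0 := if_neg hb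
        rw [h8, h9, max_eq_left (by linarith)]
    obtain ⟨h8, -⟩ := h6 _ hpull
    exact ⟨h5, L, h1, h2, ⟨θ, h4, h3⟩, h8⟩
  have hBdV : ∀ BdV : Place ℂ M → Prop, (∀ v : Place ℂ K, IsDivisorial v (d + r) → ¬ Bd v →
      ∀ (u : Place ℂ M) (c : ℕ), LiesOn v u c → ¬ BdV u) → IsCompatible Bd M (d + r) (bd BdV) := by
    intro BdV hV
    refine ⟨fun u => ?_, fun v hv hb u c hc => ?_⟩
    · unfold bd
      split_ifs
      · exact le_rfl
      · exact zero_le_one
    · have h2 : (1 : ℝ) ≤ c := by exact_mod_cast hc.1
      have h3 : 1 / (c : ℝ) ≤ 1 := by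
        rw [div_le_one (by linarith)]
        exact h2
      have h4 : bd BdV u = 0 := if_neg (hV v hv hb u c hc)
      rw [h4]
      linarith
  refine ⟨key, fun hneg => ⟨fun δB hδ hκ => hneg ((key δB hδ hκ).1 0 hκ), fun BdV hV hκ => ?_,
    fun hd => ?_⟩⟩
  · exact hneg ((key _ (hBdV BdV hV) hκ).1 0 hκ)
  · subst hd
    have h1 : PairKod ℂ M 0 (bd fun _ => False) 0 := Pool.Agent.V11168.Pair.pairKod_point hM _
    exact hneg ((key _ (hBdV (fun _ => False) fun _ _ _ _ _ _ h => h) h1).1 0 h1)

end Pool.Agent.Results.MP_410da7_ag.MultivaluedLogForms
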