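import Pool.Agent.V11168.Pair.Main

/-!
# The logarithmic Kodaira dimension of quotients of fibre spaces with logarithmic 1-forms

Let `Z → B` be an algebraic fibre space of projective varieties, `dim B = d`, `dim Z = d + (r + 1)`,
with the function fields `M ⊂ L` (`B` may be a point), `Δ_B` a divisor on `B` with multiplicities at
most `1`, and `G` a finite group of birational automorphisms of `Z`; it need not preserve the map to
`B`. Let `U` be a smooth quasi-projective variety birational to `Z / G`; its function field is the field
of invariants `fixedField G`. Let `Bd v` say that the centre of the prime divisor `v` on a smooth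
compactification of `U` with boundary `D` lies in `D`. Then the logarithmic Kodaira dimension of `U` is
the Kodaira dimension of the pair with the multiplicities `bd Bd v = 1` if `Bd v`, and `0` otherwise: the
sections of `m (K + D)` are the `m`-fold pluricanonical forms on the function field with poles of order
at most `m` along the `v` with `Bd v`, and regular along the other prime divisors.

`V` is a space of closed rational 1-forms on `Z`, preserved by `G`, regular except for logarithmic poles
along the prime divisors over the `v` with `Bd v`; `r + 1` of them are linearly independent on the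
general fibre. For example, `Z` is birational to a closed subvariety of `B × A`, where `A` is a
semi-abelian variety, and `V` the space of the restrictions of the invariant 1-forms of `A`.

`fibreForms M V` is the space of the restrictions of the forms in `V` to the generic fibre `F`, with
coefficients in `M`, and `W = constFields (fibreForms M V)` the space of the vector fields on `F` on
which all these forms are constant; they are assumed to be regular on some projective model of `F`
(`IsRegularOnModel`), and tangent to the boundary (`TangentBd`: if `w` over `v`, `Bd v`, dominates the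
base of the fibration given by `W`, then the vector fields in `W` are tangent to `w`).

* `BaseBound`: if the prime divisor `w` over `Z` is not ramified over the prime divisor `v` over `X`, not
  `Bd v`, and lies over the prime divisor `u` over `B` with multiplicity `c`, then `1 ≤ c (1 - δB u)`;
  for `Δ_B = 0` this holds always.
* `ReidTaiPair` (weighted condition of Reid-Tai type): if `w` has ramification index `e ≥ 2` over `v`, not
  `Bd v`, `g` in `G`, of order `e`, fixes `w` pointwise, and `θ 1, ..., θ (r + 1)` in `V`, independent on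
  the general fibre, are eigenvectors of `g` with the eigenvalues `ζ ^ a i`, `0 ≤ a i < e`, `ζ` a
  primitive `e`-th root of unity, then `c (1 - δB u) + a 1 + ... + a (r + 1) ≥ e`, where `c = 0` if `w`
  dominates `B`, and `w` lies over `u` with multiplicity `c` otherwise.
-/

set_option autoImplicit false

open FF IntermediateField Pool.Agent.W619.PQ Pool.Agent.W619.TW Pool.Agent.W619.Y Pool.Agent.Y173.QA
  Pool.Agent.Y173.QM Pool.Agent.Y174 Pool.Agent.V11168.Rel Pool.Agent.V11168.Pair

namespace Pool.Agent.Results.MP_410da7_ag.QuotientsOfFibreSpaces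

open scoped Classical in
/-- The multiplicities of the reduced boundary: `1` along the prime divisors with `Bd v`. -/
noncomputable def bd {k K : Type} [Field k] [Field K] [Algebra k K] (Bd : Place k K → Prop)
    (v : Place k K) : ℝ := if Bd v then 1 else 0

/-- The logarithmic Kodaira dimension is `a` (and not `-∞`): for some `m ≥ 1` there are `h + 1` sections
of `m (K + D)` whose `h` ratios are algebraically independent (`PairKod`), exactly for `h ≤ a`. -/
def HasLogKodairaDim (k K : Type) [Field k] [Field K] [Algebra k K] (n : ℕ)
    (Bd : Place k K → Prop) (a : ℕ) : Prop :=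
  ∀ h, PairKod k K n (bd Bd) h ↔ h ≤ a

/-- The numerical dimension of `K + D` is `a`: for every divisor `A` there is `C` with
`h⁰ (m (K + D) + A) ≤ C m ^ h` for all `m ≥ 1` (`PairNum`), exactly for `h ≥ a`. -/
def HasLogNumericalDim (k K : Type) [Field k] [Field K] [Algebra k K] (n : ℕ)
    (Bd : Place k K → Prop) (a : ℕ) : Prop :=
  ∀ h, PairNum k K n (bd Bd) h ↔ a ≤ h

/-- **Theorem.** Let `Z → B`, `M ⊂ L`, `Δ_B`, `G`, `U`, `Bd` and `V` be as above. Let `s` be the
dimension of the space `W` of the constant vector fields of the generic fibre, and `a = (r + 1) - s`.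
Then the logarithmic Kodaira dimension of `U` is at least `κ (K_B + Δ_B) + a`, and the numerical
dimension of `K + D` is at most `d + a`. If `K_B + Δ_B` is of general type (for example if `B` is a
point), then both are equal to `d + a`. -/
theorem result {L : Type} [Field L] [Algebra ℂ L] [Algebra.EssFiniteType ℂ L]
    -- the base
    (M : IntermediateField ℂ L) [Algebra.EssFiniteType ℂ M]
    (hMcl : ∀ x : L, IsAlgebraic M x → x ∈ M) {d r : ℕ}
    (hM : Algebra.trdeg ℂ M = d) (hn : Algebra.trdeg ℂ L = (d + (r + 1) : ℕ))
    {δB : Place ℂ M → ℝ} (hB : ∀ u, δB u ≤ 1)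
    -- the group and the boundary of `U`
    (G : Subgroup (L ≃ₐ[ℂ] L)) [Finite G]
    {Bd : Place ℂ (fixedField G) → Prop} {T : Finset (fixedField G)}
    (hT : ∀ v : Place ℂ (fixedField G), IsDivisorial v (d + (r + 1)) → Bd v →
      ∃ g ∈ T, g ≠ 0 ∧ 1 ≤ v.ord g)
    -- the forms
    (V : Submodule ℂ (Derivation ℂ L L →ₗ[L] L))
    (hlog : ∀ θ ∈ V, IsLogForm (d + (r + 1)) (BdOn Bd) θ)
    (hcl : ∀ θ ∈ V, IsClosedForm θ)
    (hstab : ∀ g ∈ G, ∀ θ ∈ V, ∃ θ' ∈ V, IsImage g θ θ')
    (hind : ∃ θ : Fin (r + 1) → Derivation ℂ L L →ₗ[L] L, (∀ i, θ i ∈ V) ∧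
      IndepOver (m := d) M θ)
    -- the conditions on the divisors
    (hBX : BaseBound (d + (r + 1)) G M Bd (bd Bd) δB)
    (hRT : ReidTaiPair d (r + 1) G M V Bd (bd Bd) δB)
    (hmod : IsRegularOnModel (constFields (fibreForms M V)))
    (htan : TangentBd (d + (r + 1)) G M (constFields (fibreForms M V)) (bd Bd)) :
    ∃ a : ℕ, a + Module.finrank M (constFields (fibreForms M V)) = r + 1 ∧
      (∀ h, PairKod ℂ M d δB h → PairKod ℂ (fixedField G) (d + (r + 1)) (bd Bd) (h + a)) ∧
      PairNum ℂ (fixedField G) (d + (r + 1)) (bd Bd) (d + a) ∧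
      (PairKod ℂ M d δB d → HasLogKodairaDim ℂ (fixedField G) (d + (r + 1)) Bd (d + a) ∧
        HasLogNumericalDim ℂ (fixedField G) (d + (r + 1)) Bd (d + a)) := by
  classical
  obtain ⟨θ, hθ, hθi⟩ := hind
  have hδ0 : ∀ v : Place ℂ (fixedField G), 0 ≤ bd Bd v := by
    intro v
    unfold bd
    split_ifs <;> norm_num
  have hδ1 : ∀ v : Place ℂ (fixedField G), Bd v → 1 ≤ bd Bd v := by
    intro v h
    unfold bd
    rw [if_pos h]
  have hT' : ∀ v : Place ℂ (fixedField G), IsDivisorial v (d + (r + 1)) →
      ∃ g ∈ insert 1 T, g ≠ 0 ∧ bd Bd v ≤ (v.ord g : ℝ) := by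
    intro v hv
    unfold bd
    split_ifs with h
    · obtain ⟨g, hg, hg0, hle⟩ := hT v hv h
      exact ⟨g, Finset.mem_insert_of_mem hg, hg0, by exact_mod_cast hle⟩
    · exact ⟨1, Finset.mem_insert_self 1 T, one_ne_zero, by rw [v.ord_one]; simp⟩
  obtain ⟨a, ha, h1, h2⟩ := pair_main hMcl hM hn G hδ0 hδ1 hT' hlog hcl hstab hB hBX hRT hθ hθi
  have h3 := h2 hmod htan
  refine ⟨a, ha, h1, h3, fun hgt => ?_⟩
  have h4 := h1 d hgt
  exact ⟨fun h => ⟨fun h5 => pair_le h5 h3, fun h5 => pairKod_mono h5 h4⟩,
    fun h => ⟨fun h5 => pair_le h4 h5, fun h5 => pairNum_mono h5 h3⟩⟩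

end Pool.Agent.Results.MP_410da7_ag.QuotientsOfFibreSpaces
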